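import Pool.Agent.Helper58.DH.Goals2

/-!
Project DH, packet S_ST: in the regime of small `Q` no solution has `s = t`.
-/

set_option autoImplicit false

namespace Pool.Agent.Helper48.DH

open Pool.Agent.Helper58.DH

/-! ### Algebra -/

theorem c1 {x y : ℝ} (hx : x ≠ 0) (hy : y ≠ 0) :
    (x ^ 2 + y ^ 2 - y ^ 2) / (2 * x * y) = x / (2 * y) := by
  rw [add_sub_cancel_right]
  field_simp

theorem c2 {x y : ℝ} (hx : x ≠ 0) (hy : y ≠ 0) :
    (y ^ 2 + x ^ 2 - y ^ 2) / (2 * y * x) = x / (2 * y) := by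
  rw [add_sub_cancel_left]
  field_simp

theorem c3 {s v : ℝ} (hs : s ≠ 0) :
    (s ^ 2 + s ^ 2 - v ^ 2) / (2 * s * s) = 1 - v ^ 2 / (2 * s ^ 2) := by
  field_simp
  ring

theorem c4 {a b u : ℝ} (ha : a ≠ 0) (hb : b ≠ 0) (hu : u ≠ 0) :
    b * ((b ^ 2 + u ^ 2 - a ^ 2) / (2 * b * u)) + a * ((a ^ 2 + u ^ 2 - b ^ 2) / (2 * a * u)) =
      u := by
  field_simp
  ring

theorem c5 {a b X : ℝ} (Q : ℝ) (ha : a ≠ 0) (hb : b ≠ 0) :
    2 * Q * (X / (2 * a * b)) = Q * (X / (a * b)) := by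
  field_simp

theorem eqs {P Q M E B : ℝ} {w : Fin 6 → ℝ} (hsol : SolC P Q M E B w) (heq : w 4 = w 5) :
    (P + E) * w 2 + Q * (w 0 + w 1) = 2 * w 4 * (1 - w 4) ∧
    (Q + E) * w 3 + P * (w 0 + w 1) = 2 * w 4 * (1 - w 4) ∧
    w 3 = B - P * ((w 0 ^ 2 + w 1 ^ 2 - w 3 ^ 2) / (w 0 * w 1)) -
      M * (1 - w 3 ^ 2 / (2 * w 4 ^ 2)) ∧
    w 2 = B - Q * ((w 0 ^ 2 + w 1 ^ 2 - w 2 ^ 2) / (w 0 * w 1)) -
      M * (1 - w 2 ^ 2 / (2 * w 4 ^ 2)) ∧
    2 * (w 0 * w 1) = (w 0 + w 1) * (1 - M) - (P + E) * w 2 - (Q + E) * w 3 +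
      M * ((w 0 * w 1) * (w 0 + w 1) / (2 * w 4 ^ 2)) := by
  obtain ⟨hpos, h0, h1, h2, h3, h4, h5⟩ := hsol
  have ha := (hpos 0).ne'
  have hb := (hpos 1).ne'
  have hu := (hpos 2).ne'
  have hv := (hpos 3).ne'
  have hs := (hpos 4).ne'
  rw [← heq] at h0 h1 h3 h4 h5
  unfold cs at h0 h1 h2 h3 h4 h5
  generalize w 0 = a at *
  generalize w 1 = b at *
  generalize w 2 = u at *
  generalize w 3 = v at *
  generalize w 4 = s at *
  rw [c1 hu hs, c2 hb hs, c2 ha hs] at h4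
  rw [c1 hv hs, c2 hb hs, c2 ha hs] at h5
  rw [c5 Q ha hb, c3 hs] at h2
  rw [c5 P ha hb, c3 hs] at h3
  rw [c3 hs] at h0 h1
  have k1 := c4 ha hb hu
  have k2 := c4 ha hb hv
  refine ⟨?_, ?_, h3, h2, ?_⟩
  · have h6 : 2 * s * s = 2 * s * (1 - (P + E) * (u / (2 * s)) - Q * (b / (2 * s) + a / (2 * s))) := by
      rw [← h4]
    have h7 : 2 * s * (1 - (P + E) * (u / (2 * s)) - Q * (b / (2 * s) + a / (2 * s))) =
        2 * s - (P + E) * u - Q * (a + b) := by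
      field_simp
      ring
    linarith
  · have h6 : 2 * s * s = 2 * s * (1 - (Q + E) * (v / (2 * s)) - P * (b / (2 * s) + a / (2 * s))) := by
      rw [← h5]
    have h7 : 2 * s * (1 - (Q + E) * (v / (2 * s)) - P * (b / (2 * s) + a / (2 * s))) =
        2 * s - (Q + E) * v - P * (a + b) := by
      field_simp
      ring
    linarith
  · linear_combination b * h0 + a * h1 - (P + E) * k1 - (Q + E) * k2

/-! ### Estimates -/

theorem vbound {P σ X v : ℝ} (hP : 15 / 32 ≤ P) (hv : 0 < v) (hσ : 0 < σ) (hσ1 : σ ≤ 16 / 15)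
    (hX : 0 < X) (hX4 : 4 * X ≤ σ ^ 2) (h : P * v ^ 2 ≤ v * X + P * (σ ^ 2 - 2 * X)) :
    v ≤ 27 / 20 * σ := by
  have hP0 : 0 < P := by linarith
  have hσ2 : σ ^ 2 ≤ 256 / 225 := by
    calc σ ^ 2 ≤ (16 / 15) ^ 2 := pow_le_pow_left₀ hσ.le hσ1 2
      _ = 256 / 225 := by norm_num
  have hv2 : v ^ 2 ≤ σ ^ 2 * (1 + 8 / 15 * v) := by
    have h1 : v * X ≤ v * (σ ^ 2 / 4) := mul_le_mul_of_nonneg_left (by linarith) hv.le
    have h3 : P * (σ ^ 2 - 2 * X) ≤ P * σ ^ 2 := mul_le_mul_of_nonneg_left (by linarith) hP0.le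
    have h4 : 15 / 32 * (σ ^ 2 * (8 / 15 * v)) ≤ P * (σ ^ 2 * (8 / 15 * v)) :=
      mul_le_mul_of_nonneg_right hP (by positivity)
    have h6 : P * v ^ 2 ≤ P * (σ ^ 2 * (1 + 8 / 15 * v)) := by
      calc P * v ^ 2 ≤ v * (σ ^ 2 / 4) + P * σ ^ 2 := by linarith
        _ = 15 / 32 * (σ ^ 2 * (8 / 15 * v)) + P * σ ^ 2 := by ring
        _ ≤ P * (σ ^ 2 * (8 / 15 * v)) + P * σ ^ 2 := by linarith
        _ = _ := by ring
    exact le_of_mul_le_mul_left h6 hP0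
  have hv3 : v < 3 / 2 := by
    by_contra hcon
    push Not at hcon
    have h1 : σ ^ 2 * (1 + 8 / 15 * v) ≤ 256 / 225 * (1 + 8 / 15 * v) :=
      mul_le_mul_of_nonneg_right hσ2 (by positivity)
    have h2 : 3 / 2 * v ≤ v ^ 2 := by
      rw [pow_two]
      exact mul_le_mul_of_nonneg_right hcon hv.le
    linarith
  by_contra hcon
  push Not at hcon
  have h1 : v ^ 2 ≤ 9 / 5 * σ ^ 2 := by
    have h2 : σ ^ 2 * (1 + 8 / 15 * v) ≤ σ ^ 2 * (9 / 5) :=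
      mul_le_mul_of_nonneg_left (by linarith) (by positivity)
    linarith
  have h3 : (27 / 20 * σ) ^ 2 < v ^ 2 := pow_lt_pow_left₀ hcon (by positivity) (by norm_num)
  have h4 : 0 < σ ^ 2 := by positivity
  have h5 : (27 / 20 * σ) ^ 2 = 729 / 400 * σ ^ 2 := by ring
  linarith

theorem xbound {α β σ u v X : ℝ} (hα : 15 / 32 ≤ α) (hβ : β ≤ 1 / 40) (hβ0 : 0 < β)
    (hσ : 0 < σ) (hσ2 : σ ^ 2 ≤ 256 / 225) (hu : 0 < u) (hv : 0 < v) (hX : 1 / 5 ≤ X)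
    (h : α * (σ - u) = β * (σ - v)) : σ ^ 2 - u ^ 2 ≤ 61 / 100 * X := by
  by_cases hσu : σ ≤ u
  · have : σ ^ 2 ≤ u ^ 2 := pow_le_pow_left₀ hσ.le hσu 2
    linarith
  · push Not at hσu
    have h0 : 0 < β * v := mul_pos hβ0 hv
    have h4 : α * (σ - u) ≤ β * σ := by
      rw [h, mul_sub]
      linarith
    have h5 : β * σ ≤ 1 / 40 * σ := mul_le_mul_of_nonneg_right hβ hσ.le
    have h6 : 15 / 32 * (σ - u) ≤ α * (σ - u) := mul_le_mul_of_nonneg_right hα (by linarith)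
    have h7 : σ - u ≤ 4 / 75 * σ := by linarith
    have h8 : σ ^ 2 - u ^ 2 ≤ 8 / 75 * σ ^ 2 := by
      calc σ ^ 2 - u ^ 2 = (σ - u) * (σ + u) := by ring
        _ ≤ 4 / 75 * σ * (2 * σ) :=
            mul_le_mul h7 (by linarith) (by linarith) (by positivity)
        _ = 8 / 75 * σ ^ 2 := by ring
    linarith

theorem ybound {α y ζ : ℝ} (hα : 0 < α) (hα2 : α ≤ 1 / 2) (hy : 0 < y) (h : α * y = 1 - ζ) :
    2 - 4 * ζ ≤ y ^ 2 / 2 := by
  have h1 : (1 - ζ) ^ 2 ≤ y ^ 2 / 4 := by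
    rw [← h]
    calc (α * y) ^ 2 ≤ (1 / 2 * y) ^ 2 :=
          pow_le_pow_left₀ (by positivity) (mul_le_mul_of_nonneg_right hα2 hy.le) 2
      _ = y ^ 2 / 4 := by ring
  have h2 : 0 ≤ ζ ^ 2 := sq_nonneg ζ
  have h3 : (1 - ζ) ^ 2 = 1 - 2 * ζ + ζ ^ 2 := by ring
  linarith

theorem final {Q M α η σ ζ R : ℝ} (hQ : 0 < Q) (hM : 0 < M) (hMQ : M ≤ Q) (hM1 : M ≤ 1 / 60)
    (hα : 2 * α + 2 * Q + M = 1) (hα0 : 15 / 32 ≤ α) (hα1 : α ≤ 1 / 2)
    (hσ : 9 / 10 ≤ σ) (hζ : ζ = 2 * η + R) (hR : R ≤ Q * (32 / 9))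
    (h : 0 ≤ -2 * η ^ 2 + Q * (1 - σ) + M / 2 + α * (Q * (-2 + 61 / 100) +
      M * (1 - (2 - 4 * ζ)))) : False := by
  have hαp : 0 < α := by linarith
  have hMM : M * M ≤ 1 / 60 * Q := mul_le_mul hM1 hMQ hM.le (by norm_num)
  have hMQ' : M * Q ≤ 1 / 60 * Q := mul_le_mul_of_nonneg_right hM1 hQ.le
  have hQM : 0 < M * Q := mul_pos hM hQ
  have h3 : -2 * η ^ 2 + 8 * (α * (M * η)) ≤ 2 * (M * M) := by
    have h4 : 0 ≤ 2 * (η - 2 * (α * M)) ^ 2 := by positivity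
    have h5 : (α * M) ^ 2 ≤ (1 / 2 * M) ^ 2 :=
      pow_le_pow_left₀ (by positivity) (mul_le_mul_of_nonneg_right hα1 hM.le) 2
    have h6 : 2 * (η - 2 * (α * M)) ^ 2 =
        2 * η ^ 2 - 8 * (α * (M * η)) + 8 * (α * M) ^ 2 := by ring
    have h7 : (1 / 2 * M) ^ 2 = 1 / 4 * (M * M) := by ring
    linarith
  have h6 : Q * (1 - σ) ≤ Q * (1 / 10) := mul_le_mul_of_nonneg_left (by linarith) hQ.le
  have h7 : 15 / 32 * Q ≤ α * Q := mul_le_mul_of_nonneg_right hα0 hQ.le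
  have h8 : α * M = 1 / 2 * M - M * Q - 1 / 2 * (M * M) := by
    have : α = (1 - 2 * Q - M) / 2 := by linarith
    rw [this]
    ring
  have h9 : α * (M * R) ≤ 1 / 2 * (M * Q * (32 / 9)) := by
    calc α * (M * R) ≤ α * (M * (Q * (32 / 9))) := by
          apply mul_le_mul_of_nonneg_left _ hαp.le
          exact mul_le_mul_of_nonneg_left hR hM.le
      _ = α * (M * Q * (32 / 9)) := by ring
      _ ≤ 1 / 2 * (M * Q * (32 / 9)) := mul_le_mul_of_nonneg_right hα1 (by positivity)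
  have h10 : α * (Q * (-2 + 61 / 100) + M * (1 - (2 - 4 * ζ))) =
      -(139 / 100) * (α * Q) - α * M + 8 * (α * (M * η)) + 4 * (α * (M * R)) := by
    rw [hζ]
    ring
  rw [h10, h8] at h
  linarith

theorem st_core (P Q M E B a b u v s : ℝ) (hreg : Reg30 P Q M E) (hB : 1 ≤ B) (ha : 0 < a)
    (hb : 0 < b) (hu : 0 < u) (hv : 0 < v) (hs : 0 < s)
    (e5 : (P + E) * u + Q * (a + b) = 2 * s * (1 - s))
    (e6 : (Q + E) * v + P * (a + b) = 2 * s * (1 - s))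
    (e3 : v = B - P * ((a ^ 2 + b ^ 2 - v ^ 2) / (a * b)) - M * (1 - v ^ 2 / (2 * s ^ 2)))
    (e2 : u = B - Q * ((a ^ 2 + b ^ 2 - u ^ 2) / (a * b)) - M * (1 - u ^ 2 / (2 * s ^ 2)))
    (e01 : 2 * (a * b) = (a + b) * (1 - M) - (P + E) * u - (Q + E) * v +
      M * ((a * b) * (a + b) / (2 * s ^ 2))) : False := by
  obtain ⟨hP, hQ, hM, hE, hsum, hMQ, hEQ, hQP⟩ := hreg
  have hab : 0 < a * b := mul_pos ha hb
  have h4ab : 4 * (a * b) ≤ (a + b) ^ 2 := by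
    have h1 := sq_nonneg (a - b)
    have h2 : (a - b) ^ 2 = (a + b) ^ 2 - 4 * (a * b) := by ring
    linarith
  have hsq : a ^ 2 + b ^ 2 = (a + b) ^ 2 - 2 * (a * b) := by ring
  rw [hsq] at e3 e2
  -- (0)
  have hP1 : 15 / 32 ≤ P := by linarith
  have hα : P + E ≤ 1 / 2 := by linarith
  have hQ1 : Q ≤ 1 / 60 := by linarith
  have hM1 : M ≤ 1 / 60 := by linarith
  have hβ : Q + E ≤ 3 / 2 * Q := by linarith
  have hβ1 : Q + E ≤ 1 / 40 := by linarith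
  have hβ0 : 0 < Q + E := by linarith
  have hα0 : 15 / 32 ≤ P + E := by linarith
  have hα1 : 0 < P + E := by linarith
  have hσ0 : 0 < a + b := by linarith
  generalize a + b = σ at *
  generalize a * b = X at *
  have hh : 2 * s * (1 - s) ≤ 1 / 2 := by
    have h1 := sq_nonneg (s - 1 / 2)
    have h2 : (s - 1 / 2) ^ 2 = s ^ 2 - s + 1 / 4 := by ring
    have h3 : 2 * s * (1 - s) = 2 * s - 2 * s ^ 2 := by ring
    linarith
  -- (2)
  have hβv : 0 < (Q + E) * v := mul_pos hβ0 hv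
  have hσ1 : σ ≤ 16 / 15 := by
    have h1 : 15 / 32 * σ ≤ P * σ := mul_le_mul_of_nonneg_right hP1 hσ0.le
    linarith
  have hσ2 : σ ^ 2 ≤ 256 / 225 := by
    calc σ ^ 2 ≤ (16 / 15) ^ 2 := pow_le_pow_left₀ hσ0.le hσ1 2
      _ = 256 / 225 := by norm_num
  -- (3)
  have hv4 : v ≤ 27 / 20 * σ := by
    refine vbound hP1 hv hσ0 hσ1 hab h4ab ?_
    have h1 : P * ((σ ^ 2 - 2 * X - v ^ 2) / X) * X = P * (σ ^ 2 - 2 * X - v ^ 2) := by
      field_simp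
    have h2 : v * X = (B - P * ((σ ^ 2 - 2 * X - v ^ 2) / X) - M * (1 - v ^ 2 / (2 * s ^ 2))) * X := by
      rw [← e3]
    have h3 : 0 ≤ (B - M) * X := mul_nonneg (by linarith) hab.le
    have h4 : 0 ≤ M * (v ^ 2 / (2 * s ^ 2)) * X := by positivity
    have h5 : v * X = (B - M) * X - P * (σ ^ 2 - 2 * X - v ^ 2) +
        M * (v ^ 2 / (2 * s ^ 2)) * X := by
      linear_combination h2 - h1
    have h6 : P * (σ ^ 2 - 2 * X - v ^ 2) = P * (σ ^ 2 - 2 * X) - P * v ^ 2 := by ring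
    linarith
  -- (4)
  have hab1 : 9 / 20 * σ ≤ 2 * X := by
    have h1 : 0 ≤ M * (X * σ / (2 * s ^ 2)) := by positivity
    have h3 : (Q + E) * v ≤ (Q + E) * (27 / 20 * σ) := mul_le_mul_of_nonneg_left hv4 hβ0.le
    have h4 : (Q + E) * σ ≤ 3 / 2 * Q * σ := mul_le_mul_of_nonneg_right hβ hσ0.le
    have h5 : Q * σ ≤ 1 / 60 * σ := mul_le_mul_of_nonneg_right hQ1 hσ0.le
    have h6 : 15 / 32 * σ ≤ (P + E) * σ := mul_le_mul_of_nonneg_right hα0 hσ0.le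
    have h7 : σ * (1 - M) = 2 * ((P + E) * σ) + 2 * (Q * σ) := by
      have : 1 - M = 2 * (P + E) + 2 * Q := by linarith
      rw [this]
      ring
    have h8 : (P + E) * u = (P + E) * σ - (Q + E) * σ + (Q + E) * v := by
      linear_combination e5 - e6
    have h9 : (Q + E) * (27 / 20 * σ) = 27 / 20 * ((Q + E) * σ) := by ring
    have h10 : 3 / 2 * Q * σ = 3 / 2 * (Q * σ) := by ring
    linarith
  have hσ3 : 9 / 10 ≤ σ := by
    have h1 : 9 / 20 * σ ≤ 1 / 2 * σ * σ := by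
      have : 1 / 2 * σ * σ = σ ^ 2 / 2 := by ring
      linarith
    have h2 := le_of_mul_le_mul_right h1 hσ0
    linarith
  have hab2 : 1 / 5 ≤ X := by linarith
  -- (5)
  have hPσ : 15 / 32 * (9 / 10) ≤ P * σ := mul_le_mul hP1 hσ3 (by norm_num) hP.le
  have hs1 : 3 / 10 ≤ s := by
    by_contra hcon
    push Not at hcon
    have h1 : 0 < (3 / 10 - s) * (7 / 10 - s) := mul_pos (by linarith) (by linarith)
    have h2 : (3 / 10 - s) * (7 / 10 - s) = 21 / 100 - s * (1 - s) := by ring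
    have h3 : 2 * s * (1 - s) = 2 * (s * (1 - s)) := by ring
    linarith
  -- (6)
  have hX : (σ ^ 2 - 2 * X - u ^ 2) / X ≤ -2 + 61 / 100 := by
    rw [div_le_iff₀ hab]
    have h3 : (P + E) * (σ - u) = (Q + E) * (σ - v) := by
      linear_combination e6 - e5
    have := xbound hα0 hβ1 hβ0 hσ0 hσ2 hu hv hab2 h3
    linarith
  have hus : (P + E) * (u / s) = 1 - (2 * (s - 1 / 2) + Q * σ / s) := by
    have h1 : (P + E) * (u / s) = (2 * s * (1 - s) - Q * σ) / s := by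
      rw [← e5]
      ring
    rw [h1]
    field_simp
    ring
  have hY : 2 - 4 * (2 * (s - 1 / 2) + Q * σ / s) ≤ u ^ 2 / (2 * s ^ 2) := by
    have h1 : u ^ 2 / (2 * s ^ 2) = (u / s) ^ 2 / 2 := by
      rw [div_pow]
      field_simp
    rw [h1]
    exact ybound hα1 hα (div_pos hu hs) hus
  have hQσs : Q * σ / s ≤ Q * (32 / 9) := by
    rw [div_le_iff₀ hs]
    have h1 : σ ≤ 32 / 9 * s := by linarith
    calc Q * σ ≤ Q * (32 / 9 * s) := mul_le_mul_of_nonneg_left h1 hQ.le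
      _ = Q * (32 / 9) * s := by ring
  have hαu1 : (P + E) * (u - 1) = -2 * (s - 1 / 2) ^ 2 + Q * (1 - σ) + M / 2 := by
    have h1 : P + E = (1 - 2 * Q - M) / 2 := by linarith
    have h2 : (P + E) * (u - 1) = 2 * s * (1 - s) - Q * σ - (P + E) := by linarith
    rw [h2, h1]
    ring
  refine final hQ hM hMQ hM1 (by linarith) hα0 hα hσ3 rfl hQσs
    (η := s - 1 / 2) (α := P + E) ?_
  rw [← hαu1, ← mul_add]
  refine mul_nonneg hα1.le ?_
  have h1 : Q * ((σ ^ 2 - 2 * X - u ^ 2) / X) ≤ Q * (-2 + 61 / 100) :=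
    mul_le_mul_of_nonneg_left hX hQ.le
  have h2 : M * (2 - 4 * (2 * (s - 1 / 2) + Q * σ / s)) ≤ M * (u ^ 2 / (2 * s ^ 2)) :=
    mul_le_mul_of_nonneg_left hY hM.le
  have h3 : M * (1 - u ^ 2 / (2 * s ^ 2)) = M - M * (u ^ 2 / (2 * s ^ 2)) := by ring
  have h4 : M * (1 - (2 - 4 * (2 * (s - 1 / 2) + Q * σ / s))) =
      M - M * (2 - 4 * (2 * (s - 1 / 2) + Q * σ / s)) := by ring
  rw [h4]
  rw [h3] at e2
  linarith

theorem s_st : S_ST := by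
  intro P Q M E B w hreg hB hsol heq
  obtain ⟨e5, e6, e3, e2, e01⟩ := eqs hsol heq
  have hpos := hsol.1
  exact st_core P Q M E B (w 0) (w 1) (w 2) (w 3) (w 4) hreg hB (hpos 0) (hpos 1) (hpos 2)
    (hpos 3) (hpos 4) e5 e6 e3 e2 e01

end Pool.Agent.Helper48.DH
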